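import Mathlib
import Pool.Agent.Lib.MP_a1ab69_an.Est

set_option autoImplicit false
open scoped ENNReal

namespace Pool.Agent.Lib.MP_a1ab69_an.Old.Q2False

/-- The variety `H_k` in `F^d`: `x_1^(j+1) + ... + x_k^(j+1) = x_(k+j)^(j+1)` for `j = 1, ..., d - k`
(coordinates are indexed from `0`, so coordinate `i ≥ k` has `j + 1 = i - k + 2`). -/
def variety (d k : ℕ) (F : Type) [Field F] [Fintype F] [DecidableEq F] : Finset (Fin d → F) :=
  Finset.univ.filter (fun x : Fin d → F => ∀ i : Fin d, k ≤ i.val →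
    ∑ l ∈ Finset.univ.filter (fun l : Fin d => l.val < k), x l ^ (i.val - k + 2)
      = x i ^ (i.val - k + 2))

/-- The average `f * dσ_k (y) = |H_k|⁻¹ ∑_{x ∈ H_k} f (y - x)`. -/
noncomputable def average (d k : ℕ) (F : Type) [Field F] [Fintype F] [DecidableEq F]
    (f : (Fin d → F) → ℂ) (y : Fin d → F) : ℂ :=
  ((variety d k F).card : ℂ)⁻¹ * ∑ x ∈ variety d k F, f (y - x)

/-- The `L^p` norm on `F^d` for the normalised counting measure: `q^(-d/p)` times the `ℓ^p` norm. -/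
noncomputable def lpNorm (d : ℕ) (F : Type) [Fintype F] (p : ℝ≥0∞) (f : (Fin d → F) → ℂ) : ℝ :=
  (Fintype.card F : ℝ) ^ (-(d : ℝ) * (p⁻¹).toReal) *
    ‖(WithLp.toLp p f : PiLp p (fun _ : Fin d → F => ℂ))‖

/-- The property `P(p, r)` of Q2: a bound `L^p → L^r` for the average, uniform over all finite
fields of large characteristic in which `-1` is a square. -/
def Bounded (d k : ℕ) (p r : ℝ≥0∞) : Prop :=
  ∃ N : ℕ, ∃ C : ℝ, ∀ (F : Type) [Field F] [Fintype F] [DecidableEq F],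
    N < ringChar F → IsSquare (-1 : F) →
      ∀ f : (Fin d → F) → ℂ, lpNorm d F r (average d k F f) ≤ C * lpNorm d F p f

/-- The conjectured region of Q2: the convex hull of `(0,0), (0,1), (1,1), S_{d,k}, T_{d,k}`. -/
def pentagon (d k : ℕ) : Set (ℝ × ℝ) :=
  convexHull ℝ ({((0 : ℝ), (0 : ℝ)), ((0 : ℝ), (1 : ℝ)), ((1 : ℝ), (1 : ℝ)),
    (((d : ℝ) * k - 2 * k + d) / (k * (2 * (d : ℝ) - k - 1)),
      ((k : ℝ) + 1) * ((d : ℝ) - k) / (k * (2 * (d : ℝ) - k - 1))),
    ((d : ℝ) * ((k : ℝ) - 1) / (k * (2 * (d : ℝ) - k - 1)),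
      ((d : ℝ) - k) * ((k : ℝ) - 1) / (k * (2 * (d : ℝ) - k - 1)))} : Set (ℝ × ℝ))

open Pool.Agent.Lib.MP_a1ab69_an in
theorem variety_eq (F : Type) [Field F] [Fintype F] [DecidableEq F] : variety 5 3 F = HH F := by
  have hfil : Finset.univ.filter (fun l : Fin 5 => l.val < 3) = {0, 1, 2} := by decide
  ext x
  simp only [variety, HH, Finset.mem_filter, Finset.mem_univ, true_and, hfil]
  have hs : ∀ n : ℕ, ∑ l ∈ ({0, 1, 2} : Finset (Fin 5)), x l ^ n = x 0 ^ n + x 1 ^ n + x 2 ^ n := by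
    intro n
    rw [Finset.sum_insert (by decide), Finset.sum_insert (by decide), Finset.sum_singleton,
      add_assoc]
  simp only [hs]
  constructor
  · intro h
    exact ⟨h 3 (by decide), h 4 (by decide)⟩
  · rintro ⟨h1, h2⟩ i hi
    fin_cases i
    · exact absurd hi (by decide)
    · exact absurd hi (by decide)
    · exact absurd hi (by decide)
    · exact h1
    · exact h2

theorem ne_zero_of_lt (F : Type) [Field F] (n : ℕ) (h0 : 0 < n) (h : n < ringChar F) :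
    (n : F) ≠ 0 := by
  intro hn
  have := (ringChar.spec F n).1 hn
  exact absurd (Nat.le_of_dvd h0 this) (by omega)

open Pool.Agent.Lib.MP_a1ab69_an in
theorem bounded : Bounded 5 3 (10 / 7) (20 / 7) := by
  refine ⟨200000000, (192 * 102 : ℝ) ^ (7 / 20 : ℝ), ?_⟩
  intro F _ _ _ hN hsq f
  obtain ⟨i, hi⟩ := hsq
  have h2 : (2 : F) ≠ 0 := by
    have := ne_zero_of_lt F 2 (by norm_num) (by omega)
    exact_mod_cast this
  have h3 : (3 : F) ≠ 0 := by
    have := ne_zero_of_lt F 3 (by norm_num) (by omega)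
    exact_mod_cast this
  have hq : 200000000 ≤ Fintype.card F := by
    have h1 : ringChar F ∣ Fintype.card F := (ringChar.spec F _).1 (FiniteField.cast_card_eq_zero F)
    have := Nat.le_of_dvd Fintype.card_pos h1
    omega
  have hp : ((10 / 7 : ℝ≥0∞)).toReal = 10 / 7 := by
    rw [ENNReal.toReal_div]; norm_num
  have hr : ((20 / 7 : ℝ≥0∞)).toReal = 20 / 7 := by
    rw [ENNReal.toReal_div]; norm_num
  have h := est hq h2 h3 i (by rw [sq, ← hi]) f
  unfold lpNorm average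
  rw [PiLp.norm_eq_sum (by rw [hr]; norm_num), PiLp.norm_eq_sum (by rw [hp]; norm_num),
    ENNReal.toReal_inv, ENNReal.toReal_inv, hp, hr, variety_eq]
  have e1 : ((10 / 7 : ℝ))⁻¹ = 7 / 10 := by norm_num
  have e2 : ((20 / 7 : ℝ))⁻¹ = 7 / 20 := by norm_num
  have e3 : (1 : ℝ) / (10 / 7) = 7 / 10 := by norm_num
  have e4 : (1 : ℝ) / (20 / 7) = 7 / 20 := by norm_num
  rw [e1, e2, e3, e4]
  exact_mod_cast h

theorem not_mem : ((7 / 10 : ℝ), (7 / 20 : ℝ)) ∉ pentagon 5 3 := by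
  intro h
  have hconv : Convex ℝ {z : ℝ × ℝ | z.1 - z.2 ≤ 1 / 3} := by
    apply convex_halfSpace_le (f := fun z : ℝ × ℝ => z.1 - z.2)
    constructor
    · intro x y; simp only [Prod.fst_add, Prod.snd_add]; ring
    · intro c x; simp only [Prod.smul_fst, Prod.smul_snd, smul_eq_mul]; ring
  have := convexHull_min (t := {z : ℝ × ℝ | z.1 - z.2 ≤ 1 / 3}) (by
    intro z hz
    simp only [Set.mem_insert_iff, Set.mem_singleton_iff] at hz
    rcases hz with rfl | rfl | rfl | rfl | rfl <;> simp only [Set.mem_ofPred_eq] <;> norm_num)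
    hconv h
  simp only [Set.mem_ofPred_eq] at this
  norm_num at this

/-- Q2 is false: for `d = 5`, `k = 3` the average is bounded from `L^(10/7)` to `L^(20/7)`
although `(7/10, 7/20)` lies outside the conjectured pentagon. -/
theorem result :
    ∃ d k : ℕ, ∃ p r : ℝ≥0∞, d = 5 ∧ k = 3 ∧ p = 10 / 7 ∧ r = 20 / 7 ∧
      3 ≤ k ∧ k + 2 ≤ d ∧ Odd k ∧ 1 ≤ p ∧ 1 ≤ r ∧
      Bounded d k p r ∧ ((p⁻¹).toReal, (r⁻¹).toReal) ∉ pentagon d k := by
  refine ⟨5, 3, 10 / 7, 20 / 7, rfl, rfl, rfl, rfl, le_rfl, le_rfl, by decide, ?_, ?_, bounded, ?_⟩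
  · rw [ENNReal.le_div_iff_mul_le (by simp) (by simp)]; norm_num
  · rw [ENNReal.le_div_iff_mul_le (by simp) (by simp)]; norm_num
  · have hp : ((10 / 7 : ℝ≥0∞)⁻¹).toReal = 7 / 10 := by
      rw [ENNReal.toReal_inv, ENNReal.toReal_div]; norm_num
    have hr : ((20 / 7 : ℝ≥0∞)⁻¹).toReal = 7 / 20 := by
      rw [ENNReal.toReal_inv, ENNReal.toReal_div]; norm_num
    rw [hp, hr]
    exact not_mem

end Pool.Agent.Lib.MP_a1ab69_an.Old.Q2False
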